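import Pool.Agent.N139.FG.Stm

namespace N139.FG

open TopologicalSpace unitInterval

section
variable {G : Type} [Group G] {D : Type} [CStarAlgebra D] (lam : G → D)

/-- The span of the image of a subgroup. -/
def spanSub (h1 : lam 1 = 1) (hmul : ∀ g h, lam (g * h) = lam g * lam h)
    (hstar : ∀ g, lam g⁻¹ = star (lam g)) (H : Subgroup G) : StarSubalgebra ℂ D where
  carrier := (Submodule.span ℂ (lam '' (H : Set G)) : Set D)
  mul_mem' := by
    intro a b ha hb
    have ha' : a ∈ Submodule.span ℂ (lam '' (H : Set G)) := ha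
    have hb' : b ∈ Submodule.span ℂ (lam '' (H : Set G)) := hb
    change a * b ∈ Submodule.span ℂ (lam '' (H : Set G))
    have := Submodule.mul_mem_mul ha' hb'
    rw [Submodule.span_mul_span] at this
    refine Submodule.span_mono ?_ this
    rintro _ ⟨_, ⟨g, hg, rfl⟩, _, ⟨k, hk, rfl⟩, rfl⟩
    exact ⟨g * k, H.mul_mem hg hk, hmul g k⟩
  one_mem' := Submodule.subset_span ⟨1, H.one_mem, h1⟩
  add_mem' := by
    intro a b ha hb
    exact (Submodule.span ℂ (lam '' (H : Set G))).add_mem ha hb
  zero_mem' := (Submodule.span ℂ (lam '' (H : Set G))).zero_mem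
  algebraMap_mem' := by
    intro r
    change algebraMap ℂ D r ∈ Submodule.span ℂ (lam '' (H : Set G))
    rw [Algebra.algebraMap_eq_smul_one]
    exact Submodule.smul_mem _ _ (Submodule.subset_span ⟨1, H.one_mem, h1⟩)
  star_mem' := by
    intro a ha
    have ha' : a ∈ Submodule.span ℂ (lam '' (H : Set G)) := ha
    change star a ∈ Submodule.span ℂ (lam '' (H : Set G))
    induction ha' using Submodule.span_induction with
    | mem x hx =>
      obtain ⟨g, hg, rfl⟩ := hx
      rw [← hstar]
      exact Submodule.subset_span ⟨g⁻¹, H.inv_mem hg, rfl⟩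
    | zero => rw [star_zero]; exact Submodule.zero_mem _
    | add x y hx hy hx' hy' =>
      rw [star_add]
      exact Submodule.add_mem _ (hx' hx) (hy' hy)
    | smul c x hx hx' =>
      rw [star_smul]
      exact Submodule.smul_mem _ _ (hx' hx)

theorem mem_spanSub (h1 : lam 1 = 1) (hmul : ∀ g h, lam (g * h) = lam g * lam h)
    (hstar : ∀ g, lam g⁻¹ = star (lam g)) (H : Subgroup G) (x : D) :
    x ∈ spanSub lam h1 hmul hstar H ↔ x ∈ Submodule.span ℂ (lam '' (H : Set G)) := Iff.rfl

end

theorem t_LF (hTEL : S_TEL) (hREG : S_REG) (hPRJ : S_PRJ) (hLOW : S_LOW) : S_LF := by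
  intro G _ _ hst hloc
  obtain ⟨D, instD, instSep, lam, τ, h1, hmul, hstar, htr, hτ1, hτ0⟩ := hREG G
  obtain ⟨e, he⟩ := exists_surjective_nat G
  classical
  let S : ℕ → Finset G := fun n => (Finset.range (n + 1)).image e
  let H : ℕ → Subgroup G := fun n => Subgroup.closure (S n : Set G)
  have hHfin : ∀ n, Finite (H n) := fun n => hloc (S n)
  have hHmono : Monotone H := by
    intro m n hmn
    apply Subgroup.closure_mono
    intro x hx
    simp only [S, Finset.coe_image, Finset.coe_range, Set.mem_image, Set.mem_Iio] at hx ⊢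
    obtain ⟨i, hi, rfl⟩ := hx
    exact ⟨i, by omega, rfl⟩
  have hHmem : ∀ g, ∃ n, g ∈ H n := by
    intro g
    obtain ⟨n, rfl⟩ := he g
    refine ⟨n, Subgroup.subset_closure ?_⟩
    simp only [S, Finset.coe_image, Finset.coe_range, Set.mem_image, Set.mem_Iio]
    exact ⟨n, by omega, rfl⟩
  let Dn : ℕ → StarSubalgebra ℂ D := fun n => spanSub lam h1 hmul hstar (H n)
  have hcl : ∀ n, IsClosed (Dn n : Set D) := by
    intro n
    have hf : (lam '' (H n : Set G)).Finite := by
      have : (H n : Set G).Finite := Set.toFinite _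
      exact this.image _
    have : FiniteDimensional ℂ (Submodule.span ℂ (lam '' (H n : Set G))) :=
      FiniteDimensional.span_of_finite ℂ hf
    exact Submodule.closed_of_finiteDimensional (Submodule.span ℂ (lam '' (H n : Set G)))
  have hmono : Monotone Dn := by
    intro m n hmn x hx
    rw [mem_spanSub] at hx ⊢
    exact Submodule.span_mono (Set.image_mono (hHmono hmn)) hx
  obtain ⟨n, w, hwmul, hwstar, hw0, hw1⟩ := hTEL G hst D Dn hcl hmono lam hmul hstar (by
    intro g
    obtain ⟨n, hn⟩ := hHmem g
    exact ⟨n, Submodule.subset_span ⟨g, hn, rfl⟩⟩)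
  -- finite subgroups have order at most |H n|
  have key : ∀ m, Nat.card (H m) ≤ Nat.card (H n) := by
    intro m
    have := hHfin m
    let _ : Fintype (H m) := Fintype.ofFinite _
    let c : ℂ := (Fintype.card (H m) : ℂ)⁻¹
    have hcard : (Fintype.card (H m) : ℂ) ≠ 0 := by
      exact_mod_cast Fintype.card_ne_zero
    let P : C(I, D) := c • ∑ g : H m, w g
    have hP : ∀ t, P t = c • ∑ g : H m, w g t := by
      intro t
      simp only [P, ContinuousMap.smul_apply, ContinuousMap.sum_apply]
    have habs : ∀ (k : H m) t, w k t * (∑ g : H m, w g t) = ∑ g : H m, w g t := by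
      intro k t
      rw [Finset.mul_sum]
      rw [← Equiv.sum_comp (Equiv.mulLeft k) (fun g : H m => w g t)]
      refine Finset.sum_congr rfl fun g _ => ?_
      rw [← hwmul]
      rfl
    have hidem : ∀ t, P t * P t = P t := by
      intro t
      rw [hP, smul_mul_smul_comm, Finset.sum_mul]
      rw [Finset.sum_congr rfl (fun k _ => habs k t)]
      rw [Finset.sum_const, Finset.card_univ, ← Nat.cast_smul_eq_nsmul ℂ, smul_smul]
      congr 1
      simp only [c]
      field_simp
    have hsa : star (P 1) = P 1 := by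
      rw [hP, star_smul, star_sum]
      have hc : star c = c := by
        simp [c]
      rw [hc]
      congr 1
      rw [← Equiv.sum_comp (Equiv.inv (H m)) (fun g : H m => w g 1)]
      refine Finset.sum_congr rfl fun g _ => ?_
      rw [← hwstar]
      rfl
    have hτP0 : τ (P 0) = c := by
      rw [hP, map_smul, map_sum]
      have : ∀ g : H m, τ (w g 0) = if g = 1 then 1 else 0 := by
        intro g
        rw [hw0]
        split_ifs with hg
        · rw [hg]; simp [h1, hτ1]
        · exact hτ0 _ (by
            intro h; apply hg; ext; simpa using h)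
      rw [Finset.sum_congr rfl (fun g _ => this g)]
      simp
    have hτP1 : τ (P 1) = c := by
      rw [← hτP0]
      exact (hPRJ D τ htr P hidem).symm
    have hc0 : c ≠ 0 := inv_ne_zero hcard
    have hPne : P 1 ≠ 0 := by
      intro h
      rw [h, map_zero] at hτP1
      exact hc0 hτP1.symm
    have hPmem : P 1 ∈ Submodule.span ℂ (lam '' (H n : Set G)) := by
      rw [hP]
      refine Submodule.smul_mem _ _ (Submodule.sum_mem _ fun g _ => ?_)
      exact hw1 g
    have hlow := hLOW G D lam τ h1 hmul hstar hτ1 hτ0 (H n) (hHfin n) (P 1) hPmem (hidem 1) hsa hPne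
    rw [hτP1] at hlow
    have hcre : c.re = 1 / (Nat.card (H m) : ℝ) := by
      rw [Nat.card_eq_fintype_card]
      have : c = (((Fintype.card (H m) : ℝ)⁻¹ : ℝ) : ℂ) := by
        simp [c]
      rw [this, Complex.ofReal_re, one_div]
    rw [hcre] at hlow
    have := hHfin n
    have hpn : (0 : ℝ) < (Nat.card (H n) : ℝ) := by
      exact_mod_cast Nat.card_pos
    have hpm : (0 : ℝ) < (Nat.card (H m) : ℝ) := by
      exact_mod_cast Nat.card_pos
    rw [div_le_div_iff₀ hpn hpm] at hlow
    have : (Nat.card (H m) : ℝ) ≤ Nat.card (H n) := by linarith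
    exact_mod_cast this
  have hall : ∀ g : G, g ∈ H n := by
    intro g
    obtain ⟨m, hm⟩ := hHmem g
    have hle : H n ≤ H (max m n) := hHmono (le_max_right _ _)
    have := hHfin (max m n)
    have heq : H n = H (max m n) := by
      apply Subgroup.eq_of_le_of_card_ge hle (key _)
    rw [heq]
    exact hHmono (le_max_left _ _) hm
  have hfn := hHfin n
  exact Finite.of_surjective (fun x : H n => (x : G)) (fun g => ⟨⟨g, hall g⟩, rfl⟩)

end N139.FG
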