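import Mathlib

namespace N139.FG

open Subgroup
open scoped commutatorElement

/-- In a nilpotent group a subgroup which covers the abelianization is everything. -/
theorem eq_top_of_sup_commutator {G : Type} [Group G] [Group.IsNilpotent G] (H : Subgroup G)
    (hH : H ⊔ _root_.commutator G = ⊤) : H = ⊤ := by
  have key : ∀ n : ℕ, H ⊔ Subgroup.lowerCentralSeries (⊤ : Subgroup G) (n + 1) = ⊤ := by
    intro n
    induction n with
    | zero => exact hH
    | succ n ih =>
      have hnorm : (Subgroup.lowerCentralSeries (⊤ : Subgroup G) (n + 1)).Normal := inferInstance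
      have hnorm2 : (Subgroup.lowerCentralSeries (⊤ : Subgroup G) (n + 1 + 1)).Normal := inferInstance
      have hgoal : H ⊔ _root_.commutator G ≤
          H ⊔ Subgroup.lowerCentralSeries (⊤ : Subgroup G) (n + 1 + 1) := ?_
      · rw [hH] at hgoal
        exact top_le_iff.1 hgoal
      refine sup_le le_sup_left ?_
      rw [_root_.commutator_def, commutator_le]
      intro g1 _ g2 _
      have hg1 : g1 ∈ H ⊔ Subgroup.lowerCentralSeries (⊤ : Subgroup G) (n + 1) := by rw [ih]; trivial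
      have hg2 : g2 ∈ H ⊔ Subgroup.lowerCentralSeries (⊤ : Subgroup G) (n + 1) := by rw [ih]; trivial
      rw [mem_sup_of_normal_right] at hg1 hg2
      obtain ⟨h1, hh1, c1, hc1, rfl⟩ := hg1
      obtain ⟨h2, hh2, c2, hc2, rfl⟩ := hg2
      set N := Subgroup.lowerCentralSeries (⊤ : Subgroup G) (n + 1 + 1) with hN
      have hcen : ∀ c ∈ Subgroup.lowerCentralSeries (⊤ : Subgroup G) (n + 1), ∀ x : G ⧸ N,
          (c : G ⧸ N) * x = x * (c : G ⧸ N) := by
        intro c hc x
        obtain ⟨y, rfl⟩ := QuotientGroup.mk_surjective x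
        have h1 : ⁅c, y⁆ ∈ N := commutator_mem_commutator hc (mem_top y)
        have h2 : ((⁅c, y⁆ : G) : G ⧸ N) = 1 := (QuotientGroup.eq_one_iff _).2 h1
        rw [commutatorElement_def, QuotientGroup.mk_mul, QuotientGroup.mk_mul,
          QuotientGroup.mk_mul, QuotientGroup.mk_inv, QuotientGroup.mk_inv] at h2
        rw [mul_inv_eq_one, mul_inv_eq_iff_eq_mul] at h2
        exact h2
      have e : ((⁅h1 * c1, h2 * c2⁆ : G) : G ⧸ N) = ((⁅h1, h2⁆ : G) : G ⧸ N) := by
        rw [commutatorElement_def, commutatorElement_def]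
        have k1 := hcen c1 hc1
        have k2 := hcen c2 hc2
        have k1' : ∀ x : G ⧸ N, (c1 : G ⧸ N)⁻¹ * x = x * (c1 : G ⧸ N)⁻¹ := by
          intro x
          rw [inv_mul_eq_iff_eq_mul, ← mul_assoc, k1, mul_assoc, mul_inv_cancel, mul_one]
        have k2' : ∀ x : G ⧸ N, (c2 : G ⧸ N)⁻¹ * x = x * (c2 : G ⧸ N)⁻¹ := by
          intro x
          rw [inv_mul_eq_iff_eq_mul, ← mul_assoc, k2, mul_assoc, mul_inv_cancel, mul_one]
        rw [mul_inv_rev, mul_inv_rev]
        calc (h1 : G ⧸ N) * c1 * (h2 * c2) * ((c1 : G ⧸ N)⁻¹ * (h1 : G ⧸ N)⁻¹)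
              * ((c2 : G ⧸ N)⁻¹ * (h2 : G ⧸ N)⁻¹)
            = (h1 : G ⧸ N) * (c1 * (h2 * c2)) * ((c1 : G ⧸ N)⁻¹ * (h1 : G ⧸ N)⁻¹)
              * ((c2 : G ⧸ N)⁻¹ * (h2 : G ⧸ N)⁻¹) := by group
          _ = (h1 : G ⧸ N) * ((h2 * c2) * c1) * ((c1 : G ⧸ N)⁻¹ * (h1 : G ⧸ N)⁻¹)
              * ((c2 : G ⧸ N)⁻¹ * (h2 : G ⧸ N)⁻¹) := by rw [k1]
          _ = (h1 : G ⧸ N) * h2 * (c2 * (h1 : G ⧸ N)⁻¹)
              * ((c2 : G ⧸ N)⁻¹ * (h2 : G ⧸ N)⁻¹) := by group
          _ = (h1 : G ⧸ N) * h2 * ((h1 : G ⧸ N)⁻¹ * c2)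
              * ((c2 : G ⧸ N)⁻¹ * (h2 : G ⧸ N)⁻¹) := by rw [k2]
          _ = (h1 : G ⧸ N) * h2 * (h1 : G ⧸ N)⁻¹ * (h2 : G ⧸ N)⁻¹ := by group
      have e2 : (⁅h1, h2⁆ : G)⁻¹ * ⁅h1 * c1, h2 * c2⁆ ∈ N := by
        rw [← QuotientGroup.eq]
        exact e.symm
      have e3 : ⁅h1 * c1, h2 * c2⁆ = ⁅h1, h2⁆ * ((⁅h1, h2⁆ : G)⁻¹ * ⁅h1 * c1, h2 * c2⁆) := by
        group
      rw [e3]
      refine mul_mem (mem_sup_left ?_) (mem_sup_right e2)
      rw [commutatorElement_def]
      exact mul_mem (mul_mem (mul_mem hh1 hh2) (inv_mem hh1)) (inv_mem hh2)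
  obtain ⟨n, hn⟩ := Subgroup.nilpotent_iff_lowerCentralSeries.1 ‹Group.IsNilpotent G›
  have h := key n
  have : Subgroup.lowerCentralSeries (⊤ : Subgroup G) (n + 1) = ⊥ := by
    rw [eq_bot_iff, ← hn]
    exact Subgroup.lowerCentralSeries_antitone _ (Nat.le_succ n)
  rw [this, sup_bot_eq] at h
  exact h

/-- A nilpotent group with finitely generated abelianization is finitely generated. -/
theorem fg_of_abelianization_fg {G : Type} [Group G] [Group.IsNilpotent G]
    (h : Group.FG (Abelianization G)) : Group.FG G := by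
  obtain ⟨S, hS⟩ := Group.fg_def.1 h
  classical
  have hsurj : Function.Surjective (Abelianization.of : G →* Abelianization G) :=
    QuotientGroup.mk_surjective
  choose r hr using hsurj
  let T : Finset G := S.image r
  refine Group.fg_def.2 ⟨T, ?_⟩
  apply eq_top_of_sup_commutator
  rw [eq_top_iff]
  intro g _
  have hmap : (closure (T : Set G)).map (Abelianization.of : G →* Abelianization G) = ⊤ := by
    rw [MonoidHom.map_closure]
    have : (Abelianization.of : G →* Abelianization G) '' (T : Set G) = S := by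
      simp only [T, Finset.coe_image, Set.image_image]
      ext x
      constructor
      · rintro ⟨y, hy, rfl⟩
        simpa only [hr] using hy
      · intro hx
        exact ⟨x, hx, hr x⟩
    rw [this]
    exact hS
  have hg : (Abelianization.of g : Abelianization G) ∈
      (closure (T : Set G)).map (Abelianization.of : G →* Abelianization G) := by
    rw [hmap]; trivial
  obtain ⟨k, hk, hkg⟩ := hg
  have hker : k⁻¹ * g ∈ _root_.commutator G := by
    have : (Abelianization.of (k⁻¹ * g) : Abelianization G) = 1 := by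
      rw [map_mul, map_inv, hkg, inv_mul_cancel]
    have h2 : k⁻¹ * g ∈ (Abelianization.of : G →* Abelianization G).ker := this
    rwa [Abelianization.ker_of] at h2
  have : g = k * (k⁻¹ * g) := by group
  rw [this]
  exact mul_mem (mem_sup_left hk) (mem_sup_right hker)

end N139.FG
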