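import Mathlib

/-! Project FG (MP_95ce84_an): C*-stable groups have finitely generated abelianization;
locally finite C*-stable groups are finite. -/

namespace N139.FG

open TopologicalSpace

/-- Closed two-sided ideals of a C*-algebra. -/
structure IsClosedIdeal {B : Type} [NonUnitalCStarAlgebra B] (I : Set B) : Prop where
  closed : IsClosed I
  zero : (0 : B) ∈ I
  add : ∀ a ∈ I, ∀ b ∈ I, a + b ∈ I
  smul : ∀ (c : ℂ), ∀ a ∈ I, c • a ∈ I
  left : ∀ a ∈ I, ∀ b : B, b * a ∈ I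
  right : ∀ a ∈ I, ∀ b : B, a * b ∈ I

/-- `u : G → B` induces a multiplicative *-preserving map `G → B / I`,
i.e. a *-homomorphism (not necessarily unital) `C*(G) → B / I`. -/
structure HomMod {G : Type} [Group G] {B : Type} [NonUnitalCStarAlgebra B]
    (I : Set B) (u : G → B) : Prop where
  mul : ∀ g h : G, u (g * h) - u g * u h ∈ I
  star : ∀ g : G, u g⁻¹ - star (u g) ∈ I

/-- `G` is C*-stable, i.e. `C*(G)` is semiprojective. -/
def CStarStable (G : Type) [Group G] : Prop :=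
  ∀ (B : Type) [NonUnitalCStarAlgebra B] [SeparableSpace B] (J : ℕ → Set B),
    (∀ n, IsClosedIdeal (J n)) → Monotone J →
    ∀ u : G → B, HomMod (closure (⋃ n, J n)) u →
    ∃ n, ∃ v : G → B, HomMod (J n) v ∧ ∀ g, v g - u g ∈ closure (⋃ n, J n)

/-- Telescope lemma. -/
def S_TEL : Prop :=
  ∀ (G : Type) [Group G], CStarStable G →
  ∀ (D : Type) [CStarAlgebra D] [SeparableSpace D] (Dn : ℕ → StarSubalgebra ℂ D),
    (∀ n, IsClosed (Dn n : Set D)) → Monotone Dn →
    ∀ u : G → D, (∀ g h, u (g * h) = u g * u h) → (∀ g, u g⁻¹ = star (u g)) →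
    (∀ g, ∃ n, u g ∈ Dn n) →
    ∃ n, ∃ w : G → C(unitInterval, D),
      (∀ g h t, w (g * h) t = w g t * w h t) ∧ (∀ g t, w g⁻¹ t = star (w g t)) ∧
      (∀ g, w g 0 = u g) ∧ (∀ g, w g 1 ∈ Dn n)

/-- Only finitely many characters vanish on a suitable finite set. -/
def S_CHAR : Prop :=
  ∀ (G : Type) [Group G] [Countable G], CStarStable G →
    ∃ F : Finset G, Set.Finite {χ : G →* Circle | ∀ g ∈ F, χ g = 1}

def S_AFG : Prop :=
  ∀ (G : Type) [Group G] (F : Finset G),
    Set.Finite {χ : G →* Circle | ∀ g ∈ F, χ g = 1} → Group.FG (Abelianization G)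

/-- Reduced group C*-algebra with its trace. -/
def S_REG : Prop :=
  ∀ (G : Type) [Group G] [Countable G],
    ∃ (D : Type) (_ : CStarAlgebra D) (_ : SeparableSpace D) (lam : G → D) (τ : D →L[ℂ] ℂ),
      lam 1 = 1 ∧ (∀ g h, lam (g * h) = lam g * lam h) ∧ (∀ g, lam g⁻¹ = star (lam g)) ∧
      (∀ a b, τ (a * b) = τ (b * a)) ∧ τ 1 = 1 ∧ ∀ g, g ≠ 1 → τ (lam g) = 0

/-- Paths of idempotents have constant trace. -/
def S_PRJ : Prop :=
  ∀ (D : Type) [CStarAlgebra D] (τ : D →L[ℂ] ℂ), (∀ a b, τ (a * b) = τ (b * a)) →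
    ∀ p : C(unitInterval, D), (∀ t, p t * p t = p t) → τ (p 0) = τ (p 1)

/-- A nonzero projection in the span of a finite subgroup `H` has trace at least `1/|H|`. -/
def S_LOW : Prop :=
  ∀ (G : Type) [Group G] (D : Type) [CStarAlgebra D] (lam : G → D) (τ : D →L[ℂ] ℂ),
    lam 1 = 1 → (∀ g h, lam (g * h) = lam g * lam h) → (∀ g, lam g⁻¹ = star (lam g)) →
    τ 1 = 1 → (∀ g, g ≠ 1 → τ (lam g) = 0) →
    ∀ (H : Subgroup G), Finite H → ∀ p ∈ Submodule.span ℂ (lam '' (H : Set G)),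
      p * p = p → star p = p → p ≠ 0 → 1 / (Nat.card H : ℝ) ≤ (τ p).re

/-- Locally finite groups. -/
def LocFin (G : Type) [Group G] : Prop :=
  ∀ S : Finset G, Finite (Subgroup.closure (S : Set G))

def S_LF : Prop :=
  ∀ (G : Type) [Group G] [Countable G], CStarStable G → LocFin G → Finite G

end N139.FG
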