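import Pool.Agent.N139.FG.Stm

namespace N139.FG

open TopologicalSpace unitInterval

section

variable {D : Type} [CStarAlgebra D] (Dn : ℕ → StarSubalgebra ℂ D)

/-- The telescope algebra. -/
def telB : StarSubalgebra ℂ C(I, D) where
  carrier := {f | ∀ n : ℕ, ∀ t : I, 1 / ((n : ℝ) + 1) ≤ (t : ℝ) → f t ∈ Dn n}
  mul_mem' := by
    intro a b ha hb n t ht
    exact mul_mem (ha n t ht) (hb n t ht)
  one_mem' := by
    intro n t _
    exact one_mem _
  add_mem' := by
    intro a b ha hb n t ht
    exact add_mem (ha n t ht) (hb n t ht)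
  zero_mem' := by
    intro n t _
    exact zero_mem _
  algebraMap_mem' := by
    intro r n t _
    exact algebraMap_mem _ r
  star_mem' := by
    intro a ha n t ht
    exact star_mem (ha n t ht)

theorem mem_telB {f : C(I, D)} :
    f ∈ telB Dn ↔ ∀ n : ℕ, ∀ t : I, 1 / ((n : ℝ) + 1) ≤ (t : ℝ) → f t ∈ Dn n := Iff.rfl

theorem isClosed_telB (hcl : ∀ n, IsClosed (Dn n : Set D)) :
    IsClosed (telB Dn : Set C(I, D)) := by
  have : (telB Dn : Set C(I, D)) =
      ⋂ n : ℕ, ⋂ t : I, ⋂ _ : 1 / ((n : ℝ) + 1) ≤ (t : ℝ), {f : C(I, D) | f t ∈ (Dn n : Set D)} := by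
    ext f
    simp only [SetLike.mem_coe, mem_telB, Set.mem_iInter, Set.mem_ofPred_eq]
  rw [this]
  refine isClosed_iInter fun n => isClosed_iInter fun t => isClosed_iInter fun _ => ?_
  exact (hcl n).preimage (continuous_eval_const t)

/-- ideals of the telescope algebra -/
def telJ (n : ℕ) : Set (telB Dn) :=
  {f | ∀ t : I, (t : ℝ) ≤ 1 / ((n : ℝ) + 1) → (f : C(I, D)) t = 0}

/-- cut-off multiplication -/
noncomputable def cutMul (c : C(I, ℝ)) (f : telB Dn) : telB Dn :=
  ⟨⟨fun t => ((c t : ℝ) : ℂ) • (f : C(I, D)) t, by fun_prop⟩, by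
    intro n t ht
    exact SMulMemClass.smul_mem _ (f.2 n t ht)⟩

theorem cutMul_apply (c : C(I, ℝ)) (f : telB Dn) (t : I) :
    ((cutMul Dn c f : telB Dn) : C(I, D)) t = ((c t : ℝ) : ℂ) • (f : C(I, D)) t := rfl

theorem mem_closure_of_zero (f : telB Dn) (h0 : (f : C(I, D)) 0 = 0) :
    f ∈ closure (⋃ n, telJ Dn n) := by
  rw [Metric.mem_closure_iff]
  intro ε hε
  have hc : ContinuousAt (fun t : I => ‖(f : C(I, D)) t‖) 0 := by
    have : Continuous (fun t : I => ‖(f : C(I, D)) t‖) := by fun_prop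
    exact this.continuousAt
  rw [Metric.continuousAt_iff] at hc
  obtain ⟨δ, hδ, hδ'⟩ := hc (ε / 2) (by positivity)
  obtain ⟨k, hk⟩ := exists_nat_gt (2 / δ)
  have hk1 : (0 : ℝ) < (k : ℝ) + 1 := by positivity
  have hk2 : 2 / ((k : ℝ) + 1) < δ := by
    rw [div_lt_iff₀ hk1]
    rw [div_lt_iff₀ hδ] at hk
    nlinarith
  let c : C(I, ℝ) := ⟨fun t => min 1 (max 0 (((k : ℝ) + 1) * (t : ℝ) - 1)), by fun_prop⟩
  have hc_apply : ∀ t : I, c t = min 1 (max 0 (((k : ℝ) + 1) * (t : ℝ) - 1)) := fun t => rfl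
  refine ⟨cutMul Dn c f, Set.mem_iUnion.2 ⟨k, ?_⟩, ?_⟩
  · intro t ht
    rw [cutMul_apply]
    have : c t = 0 := by
      rw [hc_apply]
      have h1 : ((k : ℝ) + 1) * (t : ℝ) - 1 ≤ 0 := by
        rw [le_div_iff₀ hk1] at ht
        linarith
      rw [max_eq_left h1]
      simp
    rw [this]; simp
  · have hle : dist f (cutMul Dn c f) ≤ ε / 2 := by
      have hd : dist f (cutMul Dn c f) = dist (f : C(I, D)) ((cutMul Dn c f : telB Dn) : C(I, D)) := rfl
      rw [hd, ContinuousMap.dist_le (by positivity)]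
      intro t
      rw [cutMul_apply, dist_eq_norm]
      have h1 : (f : C(I, D)) t - ((c t : ℝ) : ℂ) • (f : C(I, D)) t
          = (((1 - c t : ℝ)) : ℂ) • (f : C(I, D)) t := by
        push_cast
        rw [sub_smul, one_smul]
      rw [h1, norm_smul, Complex.norm_real]
      have hc0 : 0 ≤ c t := by rw [hc_apply]; exact le_min zero_le_one (le_max_left _ _)
      have hc1 : c t ≤ 1 := by rw [hc_apply]; exact min_le_left _ _
      by_cases ht : 2 / ((k : ℝ) + 1) ≤ (t : ℝ)
      · have : c t = 1 := by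
          rw [hc_apply]
          rw [div_le_iff₀ hk1] at ht
          apply min_eq_left
          apply le_max_of_le_right
          linarith
        rw [this]; simp; positivity
      · push Not at ht
        have hdist : dist t (0 : I) < δ := by
          rw [Subtype.dist_eq, Real.dist_eq]
          have : ((0 : I) : ℝ) = 0 := rfl
          rw [this, sub_zero, abs_of_nonneg t.2.1]
          linarith
        have h2 := hδ' hdist
        rw [Real.dist_eq, h0, norm_zero, sub_zero, abs_of_nonneg (norm_nonneg _)] at h2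
        have h3 : ‖(1 - c t : ℝ)‖ ≤ 1 := by
          rw [Real.norm_eq_abs, abs_of_nonneg (by linarith)]
          linarith
        calc ‖(1 - c t : ℝ)‖ * ‖(f : C(I, D)) t‖ ≤ 1 * ‖(f : C(I, D)) t‖ := by gcongr
          _ ≤ ε / 2 := by linarith
    linarith

theorem zero_of_mem_closure (f : telB Dn) (hf : f ∈ closure (⋃ n, telJ Dn n)) :
    (f : C(I, D)) 0 = 0 := by
  have hcl : IsClosed {f : telB Dn | (f : C(I, D)) 0 = 0} := by
    have hcont : Continuous (fun f : telB Dn => (f : C(I, D)) 0) :=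
      (continuous_eval_const (0 : I)).comp continuous_subtype_val
    exact isClosed_singleton.preimage hcont
  have hsub : (⋃ n, telJ Dn n) ⊆ {f : telB Dn | (f : C(I, D)) 0 = 0} := by
    intro g hg
    obtain ⟨n, hn⟩ := Set.mem_iUnion.1 hg
    exact hn 0 (by
      have : ((0 : I) : ℝ) = 0 := rfl
      rw [this]; positivity)
  exact closure_minimal hsub hcl hf

end

theorem t_TEL : S_TEL := by
  intro G _ hst D _ _ Dn hcl hmono u hmul hstar hev
  have hclB : IsClosed (telB Dn : Set C(I, D)) := isClosed_telB Dn hcl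
  have : SecondCountableTopology D := UniformSpace.secondCountable_of_separable D
  have : SeparableSpace (telB Dn) := inferInstance
  let instB : CStarAlgebra (telB Dn) := StarSubalgebra.cstarAlgebra (telB Dn)
  have hideal : ∀ n, IsClosedIdeal (B := telB Dn) (telJ Dn n) := by
    intro n
    refine ⟨?_, ?_, ?_, ?_, ?_, ?_⟩
    · have : telJ Dn n = ⋂ t : I, ⋂ _ : (t : ℝ) ≤ 1 / ((n : ℝ) + 1),
          {f : telB Dn | (f : C(I, D)) t = 0} := by
        ext f
        simp only [telJ, Set.mem_ofPred_eq, Set.mem_iInter]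
      rw [this]
      refine isClosed_iInter fun t => isClosed_iInter fun _ => ?_
      have hcont : Continuous (fun f : telB Dn => (f : C(I, D)) t) :=
        (continuous_eval_const t).comp continuous_subtype_val
      exact isClosed_singleton.preimage hcont
    · intro t _; rfl
    · intro a ha b hb t ht
      change (a : C(I, D)) t + (b : C(I, D)) t = 0
      rw [ha t ht, hb t ht, add_zero]
    · intro c a ha t ht
      change c • (a : C(I, D)) t = 0
      rw [ha t ht, smul_zero]
    · intro a ha b t ht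
      change (b : C(I, D)) t * (a : C(I, D)) t = 0
      rw [ha t ht, mul_zero]
    · intro a ha b t ht
      change (a : C(I, D)) t * (b : C(I, D)) t = 0
      rw [ha t ht, zero_mul]
  have hJmono : Monotone (telJ Dn) := by
    intro m n hmn f hf t ht
    refine hf t (ht.trans ?_)
    have : (m : ℝ) ≤ n := by exact_mod_cast hmn
    gcongr
  choose ng hng using hev
  -- the initial map
  let θ : ℕ → C(I, ℝ) := fun m => ⟨fun t => max 0 (1 - ((m : ℝ) + 1) * (t : ℝ)), by fun_prop⟩
  have hθ : ∀ m t, θ m t = max 0 (1 - ((m : ℝ) + 1) * (t : ℝ)) := fun _ _ => rfl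
  let U : G → telB Dn := fun g =>
    ⟨⟨fun t => ((θ (ng g) t : ℝ) : ℂ) • u g, by fun_prop⟩, by
      intro n t ht
      change ((θ (ng g) t : ℝ) : ℂ) • u g ∈ Dn n
      by_cases hn : ng g ≤ n
      · exact SMulMemClass.smul_mem _ (hmono hn (hng g))
      · push Not at hn
        have h1 : θ (ng g) t = 0 := by
          rw [hθ]
          apply max_eq_left
          have hn' : (n : ℝ) + 1 ≤ (ng g : ℝ) + 1 := by
            have : (n : ℝ) ≤ ng g := by exact_mod_cast hn.le
            linarith
          have hpos : (0 : ℝ) < (n : ℝ) + 1 := by positivity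
          rw [div_le_iff₀ hpos] at ht
          have ht0 : (0 : ℝ) ≤ t := t.2.1
          nlinarith
        rw [h1]
        simp⟩
  have hU0 : ∀ g, (U g : C(I, D)) 0 = u g := by
    intro g
    change ((θ (ng g) 0 : ℝ) : ℂ) • u g = u g
    rw [hθ]
    have : ((0 : I) : ℝ) = 0 := rfl
    rw [this]; simp
  have hHom : HomMod (B := telB Dn) (closure (⋃ n, telJ Dn n)) U := by
    refine ⟨?_, ?_⟩
    · intro g h
      apply mem_closure_of_zero
      change (U (g * h) : C(I, D)) 0 - (U g : C(I, D)) 0 * (U h : C(I, D)) 0 = 0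
      rw [hU0, hU0, hU0, hmul, sub_self]
    · intro g
      apply mem_closure_of_zero
      change (U g⁻¹ : C(I, D)) 0 - star ((U g : C(I, D)) 0) = 0
      rw [hU0, hU0, hstar, sub_self]
  obtain ⟨n, v, hv, hvU⟩ := hst (telB Dn) (telJ Dn) hideal hJmono U hHom
  have hpos : (0 : ℝ) < (n : ℝ) + 1 := by positivity
  let r : C(I, I) := ⟨fun t => ⟨(t : ℝ) / ((n : ℝ) + 1), by
      constructor
      · exact div_nonneg t.2.1 hpos.le
      · rw [div_le_one hpos]
        have := t.2.2
        have h0 : (0 : ℝ) ≤ n := Nat.cast_nonneg n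
        linarith⟩, by
      refine Continuous.subtype_mk ?_ _
      fun_prop⟩
  have hr : ∀ t : I, ((r t : I) : ℝ) = (t : ℝ) / ((n : ℝ) + 1) := fun _ => rfl
  have hrle : ∀ t : I, ((r t : I) : ℝ) ≤ 1 / ((n : ℝ) + 1) := by
    intro t
    rw [hr]
    have := t.2.2
    gcongr
  refine ⟨n, fun g => (v g : C(I, D)).comp r, ?_, ?_, ?_, ?_⟩
  · intro g h t
    have h1 := hv.mul g h (r t) (hrle t)
    change (v (g * h) : C(I, D)) (r t) - (v g : C(I, D)) (r t) * (v h : C(I, D)) (r t) = 0 at h1
    exact sub_eq_zero.1 h1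
  · intro g t
    have h1 := hv.star g (r t) (hrle t)
    change (v g⁻¹ : C(I, D)) (r t) - star ((v g : C(I, D)) (r t)) = 0 at h1
    exact sub_eq_zero.1 h1
  · intro g
    have h1 := zero_of_mem_closure Dn _ (hvU g)
    change (v g : C(I, D)) 0 - (U g : C(I, D)) 0 = 0 at h1
    rw [hU0] at h1
    have h2 : r 0 = 0 := by
      apply Subtype.ext
      rw [hr]
      have : ((0 : I) : ℝ) = 0 := rfl
      rw [this]; simp
    change (v g : C(I, D)) (r 0) = u g
    rw [h2]
    exact sub_eq_zero.1 h1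
  · intro g
    change (v g : C(I, D)) (r 1) ∈ Dn n
    apply (v g).2 n (r 1)
    rw [hr]
    have : ((1 : I) : ℝ) = 1 := rfl
    rw [this]

end N139.FG
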